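import Pool.Agent.Helper84.PH.Defs

/-! Piece EX2b of `MP_398e1f_an`. -/

open scoped Manifold ContDiff Topology
open Set Filter

noncomputable section

namespace HolPH

/-- A function on a manifold without boundary whose derivative vanishes near a point is
constant near this point. -/
theorem eventually_eq_of_mfderiv_eq_zero {X : Type*} [TopologicalSpace X] [ChartedSpace ℂ X]
    [IsManifold 𝓘(ℂ, ℂ) ω X] (g : X → C2) (ξ : X)
    (hd : ∀ᶠ ξ' in 𝓝 ξ, MDifferentiableAt 𝓘(ℂ, ℂ) 𝓘(ℂ, C2) g ξ')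
    (h0 : ∀ᶠ ξ' in 𝓝 ξ, ∀ v : TangentSpace 𝓘(ℂ, ℂ) ξ',
      (mfderiv 𝓘(ℂ, ℂ) 𝓘(ℂ, C2) g ξ' v : C2) = 0) :
    ∀ᶠ ξ' in 𝓝 ξ, g ξ' = g ξ := by
  have : IsManifold 𝓘(ℂ, ℂ) 1 X := IsManifold.of_le (n := ω) le_top
  set e := extChartAt 𝓘(ℂ, ℂ) ξ with he
  have h1 : ∀ᶠ z in 𝓝 (e ξ), z ∈ e.target := extChartAt_target_mem_nhds ξ
  have hc : Tendsto e.symm (𝓝 (e ξ)) (𝓝 ξ) := by
    have := (continuousAt_extChartAt_symm (I := 𝓘(ℂ, ℂ)) ξ)
    rw [ContinuousAt, extChartAt_to_inv] at this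
    exact this
  have h2 : ∀ᶠ z in 𝓝 (e ξ), DifferentiableAt ℂ (g ∘ e.symm) z ∧ fderiv ℂ (g ∘ e.symm) z = 0 := by
    filter_upwards [h1, hc.eventually hd, hc.eventually h0] with z hz hdz h0z
    have hs : MDifferentiableAt 𝓘(ℂ, ℂ) 𝓘(ℂ, ℂ) e.symm z :=
      ((contMDiffOn_extChartAt_symm (n := 1) ξ z hz).mdifferentiableWithinAt
        one_ne_zero).mdifferentiableAt ((isOpen_extChartAt_target ξ).mem_nhds hz)
    have hcomp := hdz.comp z hs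
    refine ⟨mdifferentiableAt_iff_differentiableAt.1 hcomp, ?_⟩
    rw [← mfderiv_eq_fderiv, mfderiv_comp z hdz hs]
    ext1
    exact h0z _
  obtain ⟨r, hr, hb⟩ := Metric.eventually_nhds_iff_ball.1 h2
  have h3 : ∀ z ∈ Metric.ball (e ξ) r, g (e.symm z) = g (e.symm (e ξ)) := by
    intro z hz
    exact (Metric.isOpen_ball).is_const_of_fderiv_eq_zero
      (convex_ball _ _).isPreconnected (fun w hw => (hb w hw).1.differentiableWithinAt)
      (fun w hw => (hb w hw).2) hz (Metric.mem_ball_self hr)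
  have h4 : ∀ᶠ ξ' in 𝓝 ξ, e ξ' ∈ Metric.ball (e ξ) r :=
    (continuousAt_extChartAt (I := 𝓘(ℂ, ℂ)) ξ).eventually (Metric.ball_mem_nhds _ hr)
  filter_upwards [h4, extChartAt_source_mem_nhds (I := 𝓘(ℂ, ℂ)) ξ] with ξ' h5 h6
  have h7 := h3 _ h5
  rwa [e.left_inv h6, e.left_inv (mem_extChartAt_source ξ)] at h7

/-- EX2b.  If the derivative of every local lift of `P` kills the directions tangent to the
horizontal leaves, `P` is locally constant along lifted leaves. -/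
theorem ex2b {X M M' : Type*} [TopologicalSpace X] [ChartedSpace ℂ X] [IsManifold 𝓘(ℂ, ℂ) ω X]
    [TopologicalSpace M] [ChartedSpace C3 M] [IsManifold I3 ω M]
    [TopologicalSpace M'] [ChartedSpace C3 M'] [IsManifold I3 ω M']
    (p : M' → M) (hp : IsLocalDiffeomorph I3 I3 ω p)
    (q : X × C2 → M) (x : C2) (hq : ContMDiff 𝓘(ℂ, ℂ) I3 ω (fun ξ : X => q (ξ, x)))
    (Λ : Submodule ℤ C2) (P : M' → C2 ⧸ Λ) (hP : IsHolomorphicToTorus Λ P)
    (hker : ∀ (y : M') (P' : M' → C2), ContMDiffAt I3 𝓘(ℂ, C2) ω P' y →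
      (∀ᶠ y' in 𝓝 y, P y' = Submodule.Quotient.mk (P' y')) →
      ∀ (ξ : X) (v : TangentSpace 𝓘(ℂ, ℂ) ξ) (v' : TangentSpace I3 y), q (ξ, x) = p y →
        (mfderiv I3 I3 p y v' : C3) = (mfderiv 𝓘(ℂ, ℂ) I3 (fun ξ : X => q (ξ, x)) ξ v : C3) →
        (mfderiv I3 𝓘(ℂ, C2) P' y v' : C2) = 0)
    (y : M') (ξ : X) (hξ : q (ξ, x) = p y) :
    ∀ᶠ ξ' in 𝓝 ξ, ∃ y', p y' = q (ξ', x) ∧ P y' = P y := by
  obtain ⟨P', hP', hPP'⟩ := hP y
  have hpy := hp y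
  set s := hpy.localInverse with hs
  have hys : s (p y) = y := hpy.localInverse_left_inv hpy.localInverse_mem_target
  have hω : (ω : WithTop ℕ∞) ≠ 0 := by simp
  -- `u`
  set Q : X → M := fun ξ' => q (ξ', x) with hQ
  have hQξ : Q ξ = p y := hξ
  have hQc : Tendsto Q (𝓝 ξ) (𝓝 (p y)) := by
    have := hq.continuous.continuousAt (x := ξ)
    rw [ContinuousAt, hQξ] at this
    exact this
  have hsrc : ∀ᶠ ξ' in 𝓝 ξ, Q ξ' ∈ s.source :=
    hQc.eventually (s.open_source.mem_nhds hpy.localInverse_mem_source)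
  have hsc : Tendsto s (𝓝 (p y)) (𝓝 y) := by
    have := hpy.localInverse_contMDiffAt.continuousAt
    rw [ContinuousAt, hpy.localInverse_left_inv hpy.localInverse_mem_target] at this
    exact this
  have hu : Tendsto (fun ξ' => s (Q ξ')) (𝓝 ξ) (𝓝 y) := hsc.comp hQc
  have hev1 : ∀ᶠ y' in 𝓝 y, ContMDiffAt I3 𝓘(ℂ, C2) ω P' y' :=
    (contMDiffAt_iff_contMDiffAt_nhds (by simp)).1 hP'
  have hev2 := hPP'.eventually_nhds
  have hmd : ∀ᶠ ξ' in 𝓝 ξ, MDifferentiableAt 𝓘(ℂ, ℂ) 𝓘(ℂ, C2) (fun ξ' => P' (s (Q ξ'))) ξ' ∧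
      ∀ v : TangentSpace 𝓘(ℂ, ℂ) ξ',
      (mfderiv 𝓘(ℂ, ℂ) 𝓘(ℂ, C2) (fun ξ' => P' (s (Q ξ'))) ξ' v : C2) = 0 := by
    filter_upwards [hu.eventually hev1, hu.eventually hev2, hsrc, hsrc.eventually_nhds]
      with ξ' h1 h2 h3 h4
    have hQd : MDifferentiableAt 𝓘(ℂ, ℂ) I3 Q ξ' := (hq.mdifferentiable hω) ξ'
    have hsd : MDifferentiableAt I3 I3 s (Q ξ') := s.mdifferentiableAt hω h3
    have hud : MDifferentiableAt 𝓘(ℂ, ℂ) I3 (fun ξ' => s (Q ξ')) ξ' := hsd.comp ξ' hQd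
    have hPd : MDifferentiableAt I3 𝓘(ℂ, C2) P' (s (Q ξ')) := h1.mdifferentiableAt hω
    refine ⟨hPd.comp ξ' hud, fun v => ?_⟩
    have hc := mfderiv_comp ξ' hPd hud
    have hpd : MDifferentiableAt I3 I3 p (s (Q ξ')) := (hp _).mdifferentiableAt hω
    have hpu : (p ∘ fun ξ' => s (Q ξ')) =ᶠ[𝓝 ξ'] Q := by
      filter_upwards [h4] with ξ'' h5
      exact hpy.localInverse_right_inv h5
    have hc2 := mfderiv_comp ξ' hpd hud
    rw [hpu.mfderiv_eq] at hc2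
    have h5 := hker (s (Q ξ')) P' h1 h2 ξ' v (mfderiv 𝓘(ℂ, ℂ) I3 (fun ξ' => s (Q ξ')) ξ' v)
      (hpy.localInverse_right_inv h3).symm (by
        have := congrArg (fun L => L v) hc2
        exact this.symm)
    have := congrArg (fun L => L v) hc
    exact this.trans h5
  have hcst := eventually_eq_of_mfderiv_eq_zero (fun ξ' => P' (s (Q ξ'))) ξ
    (hmd.mono fun _ h => h.1) (hmd.mono fun _ h => h.2)
  filter_upwards [hcst, hsrc, hu.eventually hPP'] with ξ' h1 h2 h3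
  refine ⟨s (Q ξ'), hpy.localInverse_right_inv h2, ?_⟩
  rw [h3, hPP'.self_of_nhds]
  have h4 : P' (s (Q ξ')) = P' (s (Q ξ)) := h1
  rw [h4, hQξ, hys]

end HolPH
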